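import Mathlib

open Filter Topology Set

namespace Pool.Agent.Results.MP_0aa9c3_an.IterateDifferencesConverge

/-- A real sequence whose absolute value is nonincreasing and whose consecutive
differences tend to zero converges. -/
lemma conv_of_abs_antitone (d : ℕ → ℝ) (hanti : Antitone fun n => |d n|)
    (hdiff : Tendsto (fun n => d n - d (n + 1)) atTop (𝓝 0)) :
    ∃ l : ℝ, Tendsto d atTop (𝓝 l) := by
  -- the limit of the absolute values
  have hbdd : BddBelow (range fun n => |d n|) := ⟨0, by rintro _ ⟨n, rfl⟩; exact abs_nonneg _⟩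
  obtain ⟨D, hD⟩ : ∃ D, Tendsto (fun n => |d n|) atTop (𝓝 D) :=
    ⟨_, tendsto_atTop_ciInf hanti hbdd⟩
  have hDle : ∀ n, D ≤ |d n| := fun n => hanti.le_of_tendsto hD n
  have hD0 : 0 ≤ D := ge_of_tendsto' hD fun n => abs_nonneg _
  rcases hD0.eq_or_lt with h0 | hpos
  · refine ⟨0, ?_⟩
    rw [← h0] at hD
    exact (tendsto_zero_iff_abs_tendsto_zero d).2 hD
  · have hev : ∀ᶠ n in atTop, |d n - d (n + 1)| < D := by
      have := (tendsto_zero_iff_abs_tendsto_zero _).1 hdiff
      exact this.eventually_lt_const hpos
    obtain ⟨N, hN⟩ := eventually_atTop.1 hev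
    have hstep : ∀ n ≥ N, (0 ≤ d n ↔ 0 ≤ d (n + 1)) := by
      intro n hn
      have h1 := hN n hn
      have h2 := hDle n
      have h3 := hDle (n + 1)
      rw [abs_lt] at h1
      constructor
      · intro h
        rw [abs_of_nonneg h] at h2
        linarith [h1.2]
      · intro h
        by_contra hneg
        push Not at hneg
        rw [abs_of_neg hneg] at h2
        rw [abs_of_nonneg h] at h3
        linarith [h1.1]
    have hsign : ∀ n ≥ N, (0 ≤ d N ↔ 0 ≤ d n) := by
      intro n hn
      induction n, hn using Nat.le_induction with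
      | base => exact Iff.rfl
      | succ n hn ih => exact ih.trans (hstep n hn)
    by_cases hs : 0 ≤ d N
    · refine ⟨D, hD.congr' ?_⟩
      filter_upwards [eventually_ge_atTop N] with n hn
      exact abs_of_nonneg ((hsign n hn).1 hs)
    · refine ⟨-D, hD.neg.congr' ?_⟩
      filter_upwards [eventually_ge_atTop N] with n hn
      have : ¬ 0 ≤ d n := fun h => hs ((hsign n hn).2 h)
      push Not at this
      rw [abs_of_neg this, neg_neg]

/-- The case `v > 0`. -/
lemma main_pos (T : ℝ → ℝ) (hT : ∀ x y, |T x - T y| ≤ |x - y|) (v : ℝ)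
    (hv : v ∈ closure (range fun x : ℝ => x - T x))
    (hmin : ∀ w ∈ closure (range fun x : ℝ => x - T x), |v| ≤ |w|) (hpos : 0 < v)
    (x y : ℝ) :
    ∃ l : ℝ, Tendsto (fun n : ℕ => T^[n] x - T^[n] y) atTop (𝓝 l) := by
  set g : ℝ → ℝ := fun x => x - T x with hg
  have hmono : Monotone g := by
    intro a b hab
    have h := hT a b
    rw [abs_sub_comm a b, abs_of_nonneg (sub_nonneg.2 hab)] at h
    have h2 := (abs_le.1 h).1
    simp only [hg]
    linarith
  have hTcont : Continuous T := by
    have : LipschitzWith 1 T := LipschitzWith.of_dist_le_mul fun a b => by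
      simpa [Real.dist_eq] using hT a b
    exact this.continuous
  have hgcont : Continuous g := continuous_id.sub hTcont
  -- every value of `g` is at least `v`
  have habs : ∀ a, v ≤ |g a| := fun a => by
    have := hmin (g a) (subset_closure ⟨a, rfl⟩)
    rwa [abs_of_pos hpos] at this
  -- some value is positive, close to `v`
  have hclose : ∀ ε > 0, ∃ a, |g a - v| < ε := by
    intro ε hε
    obtain ⟨w, ⟨a, rfl⟩, hw⟩ := Metric.mem_closure_iff.1 hv ε hε
    refine ⟨a, ?_⟩
    rw [Real.dist_eq, abs_sub_comm] at hw
    exact hw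
  have hge : ∀ a, v ≤ g a := by
    intro a
    by_contra hlt
    push Not at hlt
    have hneg : g a ≤ -v := by
      rcases le_abs.1 (habs a) with h | h
      · exact absurd h (not_le.2 hlt)
      · linarith
    obtain ⟨b, hb⟩ := hclose v hpos
    have hb0 : 0 < g b := by
      have := (abs_lt.1 hb).1
      linarith
    have : (0 : ℝ) ∈ range g := by
      have := isPreconnected_univ.intermediate_value (mem_univ a) (mem_univ b) hgcont.continuousOn
      have h0 := this (show (0 : ℝ) ∈ Icc (g a) (g b) from ⟨by linarith, hb0.le⟩)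
      obtain ⟨c, -, hc⟩ := h0
      exact ⟨c, hc⟩
    obtain ⟨c, hc⟩ := this
    have := habs c
    rw [hc, abs_zero] at this
    linarith
  -- orbits go to `-∞`
  have horb : ∀ a : ℝ, ∀ n : ℕ, T^[n] a ≤ a - n * v := by
    intro a n
    induction n with
    | zero => simp
    | succ n ih =>
      rw [Function.iterate_succ_apply']
      have := hge (T^[n] a)
      simp only [hg] at this
      push_cast
      linarith
  have hlim : ∀ a : ℝ, Tendsto (fun n : ℕ => g (T^[n] a)) atTop (𝓝 v) := by
    intro a
    rw [Metric.tendsto_atTop]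
    intro ε hε
    obtain ⟨b, hb⟩ := hclose ε hε
    have htend : Tendsto (fun n : ℕ => a - n * v) atTop atBot := by
      have h1 : Tendsto (fun n : ℕ => (n : ℝ) * v) atTop atTop :=
        tendsto_natCast_atTop_atTop.atTop_mul_const hpos
      simpa [sub_eq_add_neg] using tendsto_atBot_add_const_left atTop a
        (tendsto_neg_atTop_atBot.comp h1)
    obtain ⟨N, hN⟩ := eventually_atTop.1 (htend.eventually (eventually_le_atBot b))
    refine ⟨N, fun n hn => ?_⟩
    have h1 : T^[n] a ≤ b := (horb a n).trans (hN n hn)
    have h2 := hmono h1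
    have h3 := hge (T^[n] a)
    rw [Real.dist_eq, abs_lt]
    have h4 := (abs_lt.1 hb).2
    constructor <;> linarith
  refine conv_of_abs_antitone _ ?_ ?_
  · refine antitone_nat_of_succ_le fun n => ?_
    simp only [Function.iterate_succ_apply']
    exact hT _ _
  · have := (hlim x).sub (hlim y)
    rw [sub_self] at this
    refine this.congr fun n => ?_
    simp only [Function.iterate_succ_apply', hg]
    ring

/-- **Iterate differences of a nonexpansive map of the line converge.**
Let `T : ℝ → ℝ` be nonexpansive, let `v` be the point of smallest absolute value in the closure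
of the range of `Id - T`, and suppose `v ≠ 0`.  Then for all `x, y` the sequence
`T^n x - T^n y` converges.  (Whether or not `Fix (v + T)` is empty plays no role.) -/
theorem result :
    ∀ T : ℝ → ℝ, (∀ x y : ℝ, |T x - T y| ≤ |x - y|) →
      ∀ v : ℝ, v ∈ closure (Set.range fun x : ℝ => x - T x) →
        (∀ w ∈ closure (Set.range fun x : ℝ => x - T x), |v| ≤ |w|) →
          v ≠ 0 → ∀ x y : ℝ, ∃ l : ℝ,
            Filter.Tendsto (fun n : ℕ => T^[n] x - T^[n] y) Filter.atTop (nhds l) := by
  intro T hT v hv hmin hv0 x y
  rcases lt_or_gt_of_ne hv0 with hneg | hpos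
  · -- reflect
    set S : ℝ → ℝ := fun x => -T (-x) with hS
    have hrange : (range fun x : ℝ => x - S x) = (fun t : ℝ => -t) '' (range fun x : ℝ => x - T x) := by
      ext w
      constructor
      · rintro ⟨a, rfl⟩
        exact ⟨-a - T (-a), ⟨-a, rfl⟩, by simp [hS]; ring⟩
      · rintro ⟨_, ⟨a, rfl⟩, rfl⟩
        exact ⟨-a, by simp [hS]; ring⟩
    have hcl : closure (range fun x : ℝ => x - S x)
        = (fun t : ℝ => -t) '' closure (range fun x : ℝ => x - T x) := by
      rw [hrange]
      exact ((Homeomorph.neg ℝ).image_closure _).symm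
    have hST : ∀ n : ℕ, ∀ a : ℝ, S^[n] a = -T^[n] (-a) := by
      intro n
      induction n with
      | zero => intro a; simp
      | succ n ih => intro a; rw [Function.iterate_succ_apply', ih, Function.iterate_succ_apply']; simp [hS]
    obtain ⟨l, hl⟩ := main_pos S (fun a b => by
        have := hT (-a) (-b)
        simp only [hS]
        rw [show -T (-a) - -T (-b) = -(T (-a) - T (-b)) by ring, abs_neg]
        rwa [show -a - -b = -(a - b) by ring, abs_neg] at this) (-v)
      (by rw [hcl]; exact ⟨v, hv, rfl⟩)
      (by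
        rw [hcl]
        rintro _ ⟨w, hw, rfl⟩
        simpa using hmin w hw) (by linarith)
      (-x) (-y)
    refine ⟨-l, ?_⟩
    have := hl.neg
    refine this.congr fun n => ?_
    rw [hST, hST]
    simp
    ring
  · exact main_pos T hT v hv hmin hpos x y

end Pool.Agent.Results.MP_0aa9c3_an.IterateDifferencesConverge
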